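import Pool.Agent.Y993.HP.Stm

/-!
# HP-LOC: the local limit (project HP of helper993)
-/

set_option autoImplicit false

namespace Pool.Agent.Y930.HP

open Finset Filter Topology Pool.Agent.Y993.HP

section ex

variable {Ω : Type} [Fintype Ω]

theorem Ex_mono {F G : Ω → ℝ} (h : ∀ ω, F ω ≤ G ω) : Ex F ≤ Ex G := by
  unfold Ex
  gcongr
  exact h _

theorem Ex_add (F G : Ω → ℝ) : Ex (fun ω => F ω + G ω) = Ex F + Ex G := by
  unfold Ex
  rw [sum_add_distrib, add_div]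

theorem Ex_sub (F G : Ω → ℝ) : Ex (fun ω => F ω - G ω) = Ex F - Ex G := by
  unfold Ex
  rw [sum_sub_distrib, sub_div]

theorem Ex_mul (c : ℝ) (F : Ω → ℝ) : Ex (fun ω => c * F ω) = c * Ex F := by
  unfold Ex
  rw [← mul_sum, mul_div_assoc]

theorem Ex_sum {ι : Type} (s : Finset ι) (F : ι → Ω → ℝ) :
    Ex (fun ω => ∑ i ∈ s, F i ω) = ∑ i ∈ s, Ex (F i) := by
  unfold Ex
  rw [sum_comm, sum_div]

theorem Ex_const [Nonempty Ω] (c : ℝ) : Ex (fun _ : Ω => c) = c := by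
  unfold Ex
  rw [sum_const, card_univ, nsmul_eq_mul]
  have : (Fintype.card Ω : ℝ) ≠ 0 := by
    exact_mod_cast Fintype.card_ne_zero
  field_simp

theorem Ex_abs (F : Ω → ℝ) : |Ex F| ≤ Ex (fun ω => |F ω|) := by
  unfold Ex
  rw [abs_div, abs_of_nonneg (Nat.cast_nonneg (Fintype.card Ω) : (0 : ℝ) ≤ _)]
  gcongr
  exact abs_sum_le_sum_abs _ _

theorem Ex_abs_sub_le {F G H : Ω → ℝ} (h : ∀ ω, |F ω - G ω| ≤ H ω) : |Ex F - Ex G| ≤ Ex H := by
  rw [← Ex_sub]
  exact (Ex_abs _).trans (Ex_mono h)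

end ex

theorem eL_bound (d L r : ℕ) : |eL d L r| ≤ (L : ℝ) := by
  unfold eL
  refine (Ex_abs _).trans ?_
  refine (Ex_mono (G := fun _ => (L : ℝ)) fun ω => ?_).trans (le_of_eq (Ex_const _))
  rw [abs_of_nonneg (Nat.cast_nonneg _)]
  exact_mod_cast min_le_right _ _

theorem nd_bound {f : ℕ → ℝ} {B : ℝ} (h : ∀ m, |f m| ≤ B) (j : ℕ) : |nd f j| ≤ 2 ^ j * B := by
  unfold nd
  calc |∑ i ∈ range (j + 1), (-1 : ℝ) ^ (j - i) * (j.choose i : ℝ) * f i|
      ≤ ∑ i ∈ range (j + 1), |(-1 : ℝ) ^ (j - i) * (j.choose i : ℝ) * f i| := abs_sum_le_sum_abs _ _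
    _ ≤ ∑ i ∈ range (j + 1), (j.choose i : ℝ) * B := by
        refine sum_le_sum fun i _ => ?_
        rw [abs_mul, abs_mul, abs_pow, abs_neg, abs_one, one_pow, one_mul,
          abs_of_nonneg (Nat.cast_nonneg (j.choose i) : (0 : ℝ) ≤ _)]
        gcongr
        exact h i
    _ = 2 ^ j * B := by
        rw [← sum_mul]
        congr 1
        exact_mod_cast Nat.sum_range_choose j

theorem gL_summable (d L : ℕ) (κ : ℝ) :
    Summable (fun j : ℕ => κ ^ j / (j.factorial : ℝ) * nd (eL d L) j) := by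
  refine Summable.of_norm_bounded (g := fun j : ℕ => (2 * |κ|) ^ j / (j.factorial : ℝ) * L)
    ((Real.summable_pow_div_factorial _).mul_right _) fun j => ?_
  rw [Real.norm_eq_abs, abs_mul, abs_div, abs_pow,
    abs_of_nonneg (Nat.cast_nonneg j.factorial : (0 : ℝ) ≤ _)]
  have h := nd_bound (eL_bound d L) j
  calc |κ| ^ j / (j.factorial : ℝ) * |nd (eL d L) j|
      ≤ |κ| ^ j / (j.factorial : ℝ) * (2 ^ j * L) := by gcongr
    _ = _ := by rw [mul_pow]; ring

theorem Gen_mono {d n : ℕ} {X Y : Finset (Pt d n)} (h : X ⊆ Y) (hY : Gen Y) : Gen X :=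
  fun p hp q hq hpq i => hY p (h hp) q (h hq) hpq i

open Classical in
theorem Mj_eq {d n N : ℕ} {A : Finset (Pt d n)} {I : Fin d → Finset (Fin N)} {j : ℕ}
    {u : Lab d n N} (h : Gen (pts A I u)) : Mj A I j u = (pts A I u).card.choose j := by
  unfold Mj
  rw [filter_true_of_mem, card_powersetCard]
  intro T hT
  exact Gen_mono (mem_powersetCard.1 hT).1 h

open Classical in
theorem Mj_le {d n N : ℕ} (A : Finset (Pt d n)) (I : Fin d → Finset (Fin N)) (j : ℕ)
    (u : Lab d n N) : (Mj A I j u : ℝ) ≤ ((pts A I u).card : ℝ) ^ j := by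
  unfold Mj
  have h1 := card_filter_le ((pts A I u).powersetCard j) (fun T => Gen T)
  rw [card_powersetCard] at h1
  have h2 := Nat.choose_le_pow (pts A I u).card j
  exact_mod_cast h1.trans h2

open Classical in
theorem core (h3 : S_EXCH) (h4 : S_NEWT) {k L n N : ℕ} (J : ℕ) {A : Finset (Pt (k + 1) n)}
    {I : Fin (k + 1) → Finset (Fin N)} (hN : 0 < N) {K K' : ℕ → ℝ} {s τ x : ℝ}
    (hNG : ∀ j, Ex (fun u : Lab (k + 1) n N =>
      if Gen (pts A I u) then (0 : ℝ) else ((pts A I u).card : ℝ) ^ j) ≤ K j * s)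
    (hGEN : ∀ j, |Ex (fun u : Lab (k + 1) n N => (Mj A I j u : ℝ)) - x ^ j / (j.factorial : ℝ)|
      ≤ K' j / n)
    (hτ : Pr (fun u : Lab (k + 1) n N => ¬ NoTie u) ≤ τ) :
    |Ex (fun u : Lab (k + 1) n N => (zz A I L u : ℝ))
      - ∑ j ∈ range J, nd (eL (k + 1) L) j * (x ^ j / (j.factorial : ℝ))|
    ≤ 2 ^ J * L * (x ^ J / (J.factorial : ℝ)) + (L * (K 0 * s + τ) + (L * τ + 2 ^ J * L * (K' J / n)
      + ∑ j ∈ range J, |nd (eL (k + 1) L) j| * (K j * s + K' j / n))) := by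
  set f := eL (k + 1) L with hf
  have hfb : ∀ m, |f m| ≤ L := eL_bound _ _
  set Z : Lab (k + 1) n N → ℝ := fun u => (zz A I L u : ℝ) with hZ
  have hZ0 : ∀ u, 0 ≤ Z u := fun u => Nat.cast_nonneg _
  have hZL : ∀ u, Z u ≤ L := fun u => by
    simp only [hZ, zz]
    exact_mod_cast min_le_right _ _
  have hL0 : (0 : ℝ) ≤ L := Nat.cast_nonneg _
  have hτ' : Ex (fun u : Lab (k + 1) n N => if ¬ NoTie u then (1 : ℝ) else 0) ≤ τ := by
    unfold Pr at hτ
    convert hτ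
  -- the three steps
  have s1 : |Ex Z - Ex (fun u : Lab (k + 1) n N => if Gen (pts A I u) ∧ NoTie u then Z u else 0)|
      ≤ L * (K 0 * s + τ) := by
    refine (Ex_abs_sub_le (H := fun u => L * ((if Gen (pts A I u) then (0 : ℝ)
      else ((pts A I u).card : ℝ) ^ 0) + (if ¬ NoTie u then (1 : ℝ) else 0))) fun u => ?_).trans ?_
    · by_cases h1 : Gen (pts A I u) <;> by_cases h2 : NoTie u
      · simp [h1, h2]
      · simp only [h1, h2, and_false, if_false, sub_zero, if_true, not_false_eq_true, zero_add,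
          mul_one, abs_of_nonneg (hZ0 u)]
        exact hZL u
      · simp only [h1, h2, and_true, if_false, sub_zero, pow_zero, not_true, add_zero,
          mul_one, abs_of_nonneg (hZ0 u)]
        exact hZL u
      · simp only [h1, h2, and_self, if_false, sub_zero, if_true, pow_zero, not_false_eq_true,
          abs_of_nonneg (hZ0 u)]
        linarith [hZL u]
    · rw [Ex_mul, Ex_add]
      have := hNG 0
      gcongr
  have s2 := h3 (k + 1) n N L A I (by omega) hN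
  have s3 : |Ex (fun u : Lab (k + 1) n N => if Gen (pts A I u) ∧ NoTie u then
        f (pts A I u).card else 0) - Ex (fun u : Lab (k + 1) n N =>
        ∑ j ∈ range J, nd f j * (Mj A I j u : ℝ))|
      ≤ 2 ^ J * L * Ex (fun u : Lab (k + 1) n N => (Mj A I J u : ℝ))
        + (L * τ + ∑ j ∈ range J, |nd f j| * (K j * s)) := by
    refine (Ex_abs_sub_le (H := fun u => 2 ^ J * L * (Mj A I J u : ℝ)
      + (L * (if ¬ NoTie u then (1 : ℝ) else 0) + ∑ j ∈ range J, |nd f j| *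
        (if Gen (pts A I u) then (0 : ℝ) else ((pts A I u).card : ℝ) ^ j))) fun u => ?_).trans ?_
    · have hM0 : (0 : ℝ) ≤ 2 ^ J * L * (Mj A I J u : ℝ) := by positivity
      by_cases h1 : Gen (pts A I u)
      · have hN' := h4 f L hfb (pts A I u).card J
        simp only [h1, if_true, mul_zero, sum_const_zero, add_zero, true_and]
        simp only [Mj_eq h1]
        by_cases h2 : NoTie u
        · simpa only [h2, if_true, not_true, if_false, mul_zero, add_zero] using hN'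
        · simp only [h2, if_false, not_false_eq_true, if_true, mul_one, zero_sub, abs_neg]
          have h5 : |∑ j ∈ range J, nd f j * ((pts A I u).card.choose j : ℝ)|
              ≤ |f (pts A I u).card - ∑ j ∈ range J, nd f j * ((pts A I u).card.choose j : ℝ)|
                + |f (pts A I u).card| := by
            have := abs_sub_abs_le_abs_sub (∑ j ∈ range J, nd f j * ((pts A I u).card.choose j : ℝ))
              (f (pts A I u).card)
            rw [abs_sub_comm] at this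
            linarith
          linarith [hfb (pts A I u).card]
      · simp only [h1, false_and, if_false, zero_sub, abs_neg]
        have h6 : |∑ j ∈ range J, nd f j * (Mj A I j u : ℝ)|
            ≤ ∑ j ∈ range J, |nd f j| * ((pts A I u).card : ℝ) ^ j := by
          refine (abs_sum_le_sum_abs _ _).trans (sum_le_sum fun j _ => ?_)
          rw [abs_mul, abs_of_nonneg (Nat.cast_nonneg (Mj A I j u) : (0 : ℝ) ≤ _)]
          exact mul_le_mul_of_nonneg_left (Mj_le A I j u) (abs_nonneg _)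
        have h7 : (0 : ℝ) ≤ L * (if ¬ NoTie u then (1 : ℝ) else 0) := by
          split_ifs <;> simp
        linarith
    · rw [Ex_add, Ex_add, Ex_mul, Ex_mul, Ex_sum]
      have h8 : ∑ j ∈ range J, Ex (fun u : Lab (k + 1) n N => |nd f j| *
          (if Gen (pts A I u) then (0 : ℝ) else ((pts A I u).card : ℝ) ^ j))
          ≤ ∑ j ∈ range J, |nd f j| * (K j * s) := by
        refine sum_le_sum fun j _ => ?_
        rw [Ex_mul]
        exact mul_le_mul_of_nonneg_left (hNG j) (abs_nonneg _)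
      gcongr
  have s4 : Ex (fun u : Lab (k + 1) n N => ∑ j ∈ range J, nd f j * (Mj A I j u : ℝ))
      = ∑ j ∈ range J, nd f j * Ex (fun u : Lab (k + 1) n N => (Mj A I j u : ℝ)) := by
    rw [Ex_sum]
    refine sum_congr rfl fun j _ => ?_
    rw [Ex_mul]
  have s5 : |∑ j ∈ range J, nd f j * Ex (fun u : Lab (k + 1) n N => (Mj A I j u : ℝ))
      - ∑ j ∈ range J, nd f j * (x ^ j / (j.factorial : ℝ))|
      ≤ ∑ j ∈ range J, |nd f j| * (K' j / n) := by
    rw [← sum_sub_distrib]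
    refine (abs_sum_le_sum_abs _ _).trans (sum_le_sum fun j _ => ?_)
    rw [← mul_sub, abs_mul]
    exact mul_le_mul_of_nonneg_left (hGEN j) (abs_nonneg _)
  have s6 : Ex (fun u : Lab (k + 1) n N => (Mj A I J u : ℝ))
      ≤ x ^ J / (J.factorial : ℝ) + K' J / n := by
    have := (abs_le.1 (hGEN J)).2
    linarith
  have s7 : 2 ^ J * L * Ex (fun u : Lab (k + 1) n N => (Mj A I J u : ℝ))
      ≤ 2 ^ J * L * (x ^ J / (J.factorial : ℝ)) + 2 ^ J * L * (K' J / n) := by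
    rw [← mul_add]
    gcongr
  have s8 : ∑ j ∈ range J, |nd f j| * (K j * s + K' j / n)
      = ∑ j ∈ range J, |nd f j| * (K j * s) + ∑ j ∈ range J, |nd f j| * (K' j / n) := by
    rw [← sum_add_distrib]
    refine sum_congr rfl fun j _ => ?_
    ring
  rw [s8]
  rw [s4] at s3
  have s2' : Ex (fun u : Lab (k + 1) n N => if Gen (pts A I u) ∧ NoTie u then Z u else 0)
      = Ex (fun u : Lab (k + 1) n N => if Gen (pts A I u) ∧ NoTie u then
        f (pts A I u).card else 0) := s2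
  rw [s2'] at s1
  rw [abs_le] at s1 s3 s5 ⊢
  constructor <;> linarith [s1.1, s1.2, s3.1, s3.2, s5.1, s5.2]

/-- **HP-LOC.** -/
theorem loc1 (h1 : S_NG) (h2 : S_GEN) (h3 : S_EXCH) (h4 : S_NEWT) (h5 : S_TIE) : S_LOC := by
  intro k L C κ δ hk hC hκ hδ
  choose K hK0 hK using fun j => h1 k j C hk hC
  choose K' hK'0 hK' using fun j => h2 k j C hk hC
  set f := eL (k + 1) L with hf
  have hL0 : (0 : ℝ) ≤ L := Nat.cast_nonneg _
  -- the choice of J
  have t1 : Tendsto (fun J : ℕ => ∑ j ∈ range J, κ ^ j / (j.factorial : ℝ) * nd f j) atTop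
      (𝓝 (gL (k + 1) L κ)) := (gL_summable (k + 1) L κ).hasSum.tendsto_sum_nat
  have t2 : Tendsto (fun J : ℕ => (L : ℝ) * ((2 * κ) ^ J / (J.factorial : ℝ))) atTop (𝓝 0) := by
    simpa using (FloorSemiring.tendsto_pow_div_factorial_atTop (2 * κ)).const_mul (L : ℝ)
  have e1 : ∀ᶠ J : ℕ in atTop,
      |∑ j ∈ range J, κ ^ j / (j.factorial : ℝ) * nd f j - gL (k + 1) L κ| < δ / 4 := by
    have := (Metric.tendsto_nhds.1 t1) (δ / 4) (by positivity)
    simpa [Real.dist_eq] using this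
  have e2 : ∀ᶠ J : ℕ in atTop, (L : ℝ) * ((2 * κ) ^ J / (J.factorial : ℝ)) < δ / 4 :=
    t2.eventually_lt_const (by positivity)
  obtain ⟨J, hJ1, hJ2⟩ := (e1.and e2).exists
  -- the choice of δ'
  set Φ : ℝ → ℝ := fun x => 2 ^ J * L * (x ^ J / (J.factorial : ℝ))
    + |∑ j ∈ range J, nd f j * (x ^ j / (j.factorial : ℝ))
      - ∑ j ∈ range J, κ ^ j / (j.factorial : ℝ) * nd f j| with hΦ
  have hΦκ : Φ κ < δ / 2 := by
    have h6 : ∑ j ∈ range J, nd f j * (κ ^ j / (j.factorial : ℝ))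
        = ∑ j ∈ range J, κ ^ j / (j.factorial : ℝ) * nd f j :=
      sum_congr rfl fun j _ => mul_comm _ _
    have h7 : 2 ^ J * L * (κ ^ J / (J.factorial : ℝ)) = (L : ℝ) * ((2 * κ) ^ J / (J.factorial : ℝ)) := by
      rw [mul_pow]; ring
    simp only [hΦ]
    rw [h6, sub_self, abs_zero, add_zero, h7]
    linarith
  have hΦc : Continuous Φ := by
    simp only [hΦ]
    fun_prop
  have e3 : ∀ᶠ x in 𝓝 κ, Φ x < δ / 2 := hΦc.continuousAt.eventually_lt continuousAt_const hΦκ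
  obtain ⟨ε, hε, hεx⟩ := Metric.eventually_nhds_iff.1 e3
  -- the choice of n0
  set E : ℝ → ℝ → ℝ := fun s y => (L * (K 0 * s + (k + 1 : ℕ) * y) + (L * ((k + 1 : ℕ) * y)
      + 2 ^ J * L * (K' J * y)
      + ∑ j ∈ range J, |nd f j| * (K j * s + K' j * y))) with hE
  have t3 : Tendsto (fun n : ℕ => (n : ℝ) ^ (-(1 / ((k : ℝ) + 1)))) atTop (𝓝 0) :=
    (tendsto_rpow_neg_atTop (by positivity)).comp tendsto_natCast_atTop_atTop
  have t4 : Tendsto (fun n : ℕ => (n : ℝ)⁻¹) atTop (𝓝 0) := tendsto_inv_atTop_nhds_zero_nat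
  have hEc : Continuous (fun z : ℝ × ℝ => E z.1 z.2) := by
    simp only [hE]
    fun_prop
  have t5 : Tendsto (fun n : ℕ => E ((n : ℝ) ^ (-(1 / ((k : ℝ) + 1)))) ((n : ℝ)⁻¹)) atTop
      (𝓝 (E 0 0)) := (hEc.tendsto (0, 0)).comp (t3.prodMk_nhds t4)
  have hE0 : E 0 0 = 0 := by
    simp [hE]
  rw [hE0] at t5
  have e4 : ∀ᶠ n : ℕ in atTop, E ((n : ℝ) ^ (-(1 / ((k : ℝ) + 1)))) ((n : ℝ)⁻¹) < δ / 4 :=
    t5.eventually_lt_const (by positivity)
  obtain ⟨n1, hn1⟩ := eventually_atTop.1 e4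
  refine ⟨max n1 1, ε / 2, by positivity, ?_⟩
  intro n N A I hn hN hA hnN hI hx
  have hn1' : n1 ≤ n := (le_max_left _ _).trans hn
  have hn1 := hn1 n hn1'
  have hn0 : 1 ≤ n := (le_max_right _ _).trans hn
  have hnR : (0 : ℝ) < n := by exact_mod_cast hn0
  have hτ : Pr (fun u : Lab (k + 1) n N => ¬ NoTie u) ≤ (k + 1 : ℕ) * (n : ℝ)⁻¹ := by
    refine (h5 (k + 1) n N hN).trans ?_
    have hN3 : (n : ℝ) ^ 3 ≤ N := by exact_mod_cast hnN
    calc ((k + 1 : ℕ) : ℝ) * (n : ℝ) ^ 2 / N ≤ ((k + 1 : ℕ) : ℝ) * (n : ℝ) ^ 2 / (n : ℝ) ^ 3 := by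
          gcongr
      _ = _ := by field_simp
  have hc := core h3 h4 (L := L) J (A := A) (I := I) hN
    (K := K) (K' := K') (s := (n : ℝ) ^ (-(1 / ((k : ℝ) + 1)))) (x := (n : ℝ) ^ k * wt I)
    (fun j => hK j n N A I hn0 hN hA hI) (fun j => hK' j n N A I hn0 hN hA hI) hτ
  have hx' := hεx (y := (n : ℝ) ^ k * wt I) (by
    rw [Real.dist_eq]
    linarith)
  set x : ℝ := (n : ℝ) ^ k * wt I
  have hE' : (L * (K 0 * (n : ℝ) ^ (-(1 / ((k : ℝ) + 1))) + (k + 1 : ℕ) * (n : ℝ)⁻¹)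
      + (L * ((k + 1 : ℕ) * (n : ℝ)⁻¹) + 2 ^ J * L * (K' J / n)
      + ∑ j ∈ range J, |nd f j| * (K j * (n : ℝ) ^ (-(1 / ((k : ℝ) + 1))) + K' j / n)))
      = E ((n : ℝ) ^ (-(1 / ((k : ℝ) + 1)))) ((n : ℝ)⁻¹) := by
    simp only [hE, div_eq_mul_inv]
  rw [← hf, hE'] at hc
  simp only [hΦ] at hx'
  have g1 := abs_le.1 hc
  have g2 := abs_lt.1 hJ1
  have g3 := neg_abs_le (∑ j ∈ range J, nd f j * (x ^ j / (j.factorial : ℝ))
      - ∑ j ∈ range J, κ ^ j / (j.factorial : ℝ) * nd f j)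
  have g4 := le_abs_self (∑ j ∈ range J, nd f j * (x ^ j / (j.factorial : ℝ))
      - ∑ j ∈ range J, κ ^ j / (j.factorial : ℝ) * nd f j)
  rw [abs_le]
  constructor <;> linarith [g1.1, g1.2, g2.1, g2.2]

end Pool.Agent.Y930.HP
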